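import Pool.Agent.H95.GY.Targets

/-! Locally connected coset spaces (LCN). -/

set_option autoImplicit false
set_option linter.unusedSectionVars false

open Filter Topology MeasureTheory Set
open scoped Pointwise

universe u v

namespace Pool.Agent.H17.GY

open Pool.Agent.H95.GY

section Aux

variable {G : Type u} [Group G] [TopologicalSpace G] [IsTopologicalGroup G] [T2Space G]

/-- the product of a compact subgroup and a compact normal subgroup is compact -/
lemma sup_compact {K N : Subgroup G} (hK : IsCompact (K : Set G)) (hN : IsCompact (N : Set G))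
    (hn : N.Normal) : IsCompact ((K ⊔ N : Subgroup G) : Set G) := by
  rw [Subgroup.mul_normal]
  exact hK.mul hN

/-- the complement of a closed subgroup of finite index is closed -/
lemma compl_closed {P P' : Subgroup G} (hP : IsClosed (P : Set G)) (hP' : IsClosed (P' : Set G))
    (hi : P'.relIndex P ≠ 0) : IsClosed ((P : Set G) \ P') := by
  have h1 : IsClosed ((P'.subgroupOf P : Subgroup P) : Set P) :=
    hP'.preimage continuous_subtype_val
  have h2 : (P'.subgroupOf P).FiniteIndex := ⟨hi⟩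
  have h3 : IsOpen ((P'.subgroupOf P : Subgroup P) : Set P) :=
    Subgroup.isOpen_of_isClosed_of_finiteIndex _ h1
  have h4 := hP.isClosedEmbedding_subtypeVal.isClosedMap _ h3.isClosed_compl
  have h5 : ((P : Set G) \ P') =
      Subtype.val '' (((P'.subgroupOf P : Subgroup P) : Set P)ᶜ) := by
    ext x
    constructor
    · rintro ⟨h6, h7⟩
      exact ⟨⟨x, h6⟩, fun h8 => h7 (Subgroup.mem_subgroupOf.1 h8), rfl⟩
    · rintro ⟨⟨y, hy⟩, h6, rfl⟩
      exact ⟨hy, fun h7 => h6 (Subgroup.mem_subgroupOf.2 h7)⟩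
  rw [h5]
  exact h4

/-- images of unions of cosets -/
lemma pre_image {K : Subgroup G} {A : Set G} (hA : ∀ a ∈ A, ∀ k ∈ K, a * k ∈ A) :
    (QuotientGroup.mk : G → G ⧸ K) ⁻¹' ((QuotientGroup.mk : G → G ⧸ K) '' A) = A := by
  refine subset_antisymm ?_ (subset_preimage_image _ _)
  rintro x ⟨a, ha, h⟩
  have h1 : a⁻¹ * x ∈ K := QuotientGroup.eq.1 h
  have h2 := hA a ha _ h1
  rwa [mul_inv_cancel_left] at h2

lemma image_closed {K : Subgroup G} {A : Set G} (hA : ∀ a ∈ A, ∀ k ∈ K, a * k ∈ A)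
    (hc : IsClosed A) : IsClosed ((QuotientGroup.mk : G → G ⧸ K) '' A) := by
  have hq : IsQuotientMap (QuotientGroup.mk : G → G ⧸ K) := QuotientGroup.isQuotientMap_mk K
  rw [← hq.isClosed_preimage, pre_image hA]
  exact hc

end Aux

theorem pf_LCN (hRET : T_RET.{u}) : T_LCN.{u} := by
  intro G _ _ _ _ _ hG K hK hloc N hN hidx
  have hNn := hN.normal
  have hPc : IsCompact ((K ⊔ N : Subgroup G) : Set G) := sup_compact hK hN.compact hNn
  obtain ⟨P, hP⟩ : ∃ P : Subgroup G, P = K ⊔ N := ⟨_, rfl⟩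
  rw [← hP] at hPc
  have hKP : K ≤ P := hP ▸ le_sup_left
  have hNP : N ≤ P := hP ▸ le_sup_right
  obtain ⟨U, ρ, hUo, hPU, hρc, hρP, hρid, hρe⟩ := hRET G hG P hPc N hN hNP
  let mk : G → G ⧸ K := QuotientGroup.mk
  have hq : IsQuotientMap mk := QuotientGroup.isQuotientMap_mk K
  have hUK : ∀ a ∈ U, ∀ k ∈ K, a * k ∈ U := by
    intro a ha k hk
    have := (hρe 1 P.one_mem k (hKP hk) a ha).1
    rwa [one_mul] at this
  have hρK : ∀ a ∈ U, ∀ k ∈ K, ρ (a * k) = ρ a * k := by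
    intro a ha k hk
    have := (hρe 1 P.one_mem k (hKP hk) a ha).2
    rwa [one_mul, one_mul] at this
  have hUUo : IsOpen (mk '' U) := QuotientGroup.isOpenMap_coe _ hUo
  have hUU : mk ⁻¹' (mk '' U) = U := pre_image hUK
  let f : G ⧸ K → G ⧸ K := fun q => mk (ρ q.out)
  have hf : ∀ g ∈ U, f (mk g) = mk (ρ g) := by
    intro g hg
    obtain ⟨k, hk⟩ := QuotientGroup.mk_out_eq_mul K g
    show mk (ρ (mk g).out) = _
    have h1 : (mk g).out = g * k := hk
    rw [h1, hρK g hg k k.2]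
    exact QuotientGroup.mk_mul_of_mem _ k.2
  have hfc : ContinuousOn f (mk '' U) := by
    rw [hq.continuousOn_isOpen_iff hUUo, hUU]
    refine ((hq.continuous.comp_continuousOn hρc)).congr fun g hg => ?_
    exact hf g hg
  have h1U : (1 : G) ∈ U := hPU P.one_mem
  obtain ⟨C, hCU, hCo, h1C, hCc⟩ :=
    (locallyConnectedSpace_iff_subsets_isOpen_isConnected.1 hloc) (mk 1) (mk '' U)
      (hUUo.mem_nhds ⟨1, h1U, rfl⟩)
  have hpre : IsPreconnected (f '' C) := hCc.isPreconnected.image f (hfc.mono hCU)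
  have hf1 : f (mk 1) = mk 1 := by
    rw [hf 1 h1U, hρid 1 P.one_mem]
  -- the image of `C` is contained in the image of `K ⊔ N'`
  have key : ∀ N' : Subgroup G, Good N' → N' ≤ N → ∀ c ∈ C, ∀ p, f c = mk p → p ∈ K ⊔ N' := by
    intro N' hN' hle c hc p hp
    have hn' := hN'.normal
    have hP'c : IsClosed ((K ⊔ N' : Subgroup G) : Set G) :=
      (sup_compact hK hN'.compact hn').isClosed
    have hle' : K ⊔ N' ≤ P := hP ▸ sup_le_sup_left hle K
    have hi : (K ⊔ N').relIndex P ≠ 0 := hP ▸ hidx N' hN' hle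
    have hKP' : K ≤ K ⊔ N' := le_sup_left
    have s1 : ∀ a ∈ ((K ⊔ N' : Subgroup G) : Set G), ∀ k ∈ K,
        a * k ∈ ((K ⊔ N' : Subgroup G) : Set G) := fun a ha k hk =>
      Subgroup.mul_mem _ ha (hKP' hk)
    have s2 : ∀ a ∈ (P : Set G) \ ((K ⊔ N' : Subgroup G) : Set G), ∀ k ∈ K,
        a * k ∈ (P : Set G) \ ((K ⊔ N' : Subgroup G) : Set G) := by
      rintro a ⟨ha, ha'⟩ k hk
      refine ⟨P.mul_mem ha (hKP hk), fun h => ha' ?_⟩
      have h2 := Subgroup.mul_mem _ h (Subgroup.inv_mem _ (hKP' hk))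
      rwa [mul_inv_cancel_right] at h2
    have c1 : IsClosed (mk '' ((K ⊔ N' : Subgroup G) : Set G)) := image_closed s1 hP'c
    have c2 : IsClosed (mk '' ((P : Set G) \ ((K ⊔ N' : Subgroup G) : Set G))) :=
      image_closed s2 (compl_closed hPc.isClosed hP'c hi)
    have hcov : f '' C ⊆ mk '' ((K ⊔ N' : Subgroup G) : Set G) ∪
        mk '' ((P : Set G) \ ((K ⊔ N' : Subgroup G) : Set G)) := by
      rintro _ ⟨c, hc, rfl⟩
      obtain ⟨g, hg, rfl⟩ := hCU hc
      rw [hf g hg]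
      by_cases h : ρ g ∈ K ⊔ N'
      · exact Or.inl ⟨_, h, rfl⟩
      · exact Or.inr ⟨_, ⟨hρP g hg, h⟩, rfl⟩
    have hdis : f '' C ∩ (mk '' ((K ⊔ N' : Subgroup G) : Set G) ∩
        mk '' ((P : Set G) \ ((K ⊔ N' : Subgroup G) : Set G))) = ∅ := by
      rw [eq_empty_iff_forall_notMem]
      rintro _ ⟨-, ⟨a, ha, rfl⟩, ⟨b, ⟨-, hb⟩, h⟩⟩
      apply hb
      have h1 : b⁻¹ * a ∈ K := QuotientGroup.eq.1 h
      have h2 := Subgroup.mul_mem _ ha (Subgroup.inv_mem _ (hKP' h1))
      have h3 : a * (b⁻¹ * a)⁻¹ = b := by group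
      rwa [h3] at h2
    have h1 : f '' C ⊆ mk '' ((K ⊔ N' : Subgroup G) : Set G) := by
      rcases isPreconnected_iff_subset_of_disjoint_closed.1 hpre _ _ c1 c2 hcov hdis with h | h
      · exact h
      · exfalso
        obtain ⟨b, ⟨-, hb⟩, hb2⟩ := h ⟨mk 1, h1C, hf1⟩
        apply hb
        have h1 : b⁻¹ * 1 ∈ K := QuotientGroup.eq.1 hb2
        rw [mul_one] at h1
        exact hKP' ((Subgroup.inv_mem_iff K).1 h1)
    have h2 := h1 ⟨c, hc, rfl⟩
    rw [hp] at h2
    have h3 : p ∈ mk ⁻¹' (mk '' ((K ⊔ N' : Subgroup G) : Set G)) := h2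
    rw [pre_image s1] at h3
    exact h3
  -- the map is constant on `C`
  have hconst : ∀ c ∈ C, f c = mk 1 := by
    intro c hc
    obtain ⟨p, hp⟩ : ∃ p, f c = mk p := ⟨_, rfl⟩
    rw [hp]
    have hpK : p ∈ K := by
      by_contra hpK
      have hV : {n : G | p * n⁻¹ ∉ K} ∈ 𝓝 (1 : G) := by
        have h1 : IsOpen {n : G | p * n⁻¹ ∉ K} :=
          hK.isClosed.isOpen_compl.preimage (continuous_const.mul continuous_inv)
        refine h1.mem_nhds ?_
        show p * 1⁻¹ ∉ K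
        rwa [inv_one, mul_one]
      obtain ⟨N', hN', hle, hsub⟩ := hG.exists_le hN hV
      have hn' := hN'.normal
      have h1 : p ∈ ((K ⊔ N' : Subgroup G) : Set G) := key N' hN' hle c hc p hp
      rw [Subgroup.mul_normal] at h1
      obtain ⟨k, hk, n, hn, rfl⟩ := Set.mem_mul.1 h1
      apply hsub hn
      rw [mul_inv_cancel_right]
      exact hk
    refine QuotientGroup.eq.2 ?_
    rw [mul_one]
    exact K.inv_mem hpK
  have hO : mk ⁻¹' C ∈ 𝓝 (1 : G) := (hCo.preimage hq.continuous).mem_nhds h1C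
  obtain ⟨N', hN', hle, hsub⟩ := hG.exists_le hN hO
  refine ⟨N', hN', fun n hn => ?_⟩
  have hnP : n ∈ P := hNP (hle hn)
  have h1 : f (mk n) = mk n := by
    rw [hf n (hPU hnP), hρid n hnP]
  have h2 := hconst (mk n) (hsub hn)
  rw [h1] at h2
  have h3 : n⁻¹ * 1 ∈ K := QuotientGroup.eq.1 h2
  rw [mul_one] at h3
  exact (Subgroup.inv_mem_iff K).1 h3

end Pool.Agent.H17.GY
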