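import Pool.Agent.H95.GY.Targets

/-! A compact group without small subgroups has a one-parameter group outside of a closed subgroup
of infinite index (OPN). -/

set_option autoImplicit false

open Filter Topology MeasureTheory Set
open scoped Pointwise

universe u v

namespace Pool.Agent.H17.GY

open Pool.Agent.H95.GY

theorem pf_OPN (hLIE : T_LIE.{u}) : T_OPN.{u} := by
  intro M _ _ _ _ _ hM P hP hidx
  by_contra hcon
  have hall : ∀ X : ℝ → M, IsOPS X → ∀ t, X t ∈ P := by
    intro X hX t
    by_contra ht
    exact hcon ⟨X, hX, t, ht⟩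
  obtain ⟨n, e, he⟩ := hLIE M hM
  have h1 := he.nhd 1 one_pos
  have h2 : (P : Set M) ∈ 𝓝 (1 : M) := by
    refine mem_of_superset h1 ?_
    rintro _ ⟨v, -, rfl⟩
    exact hall (e v) (he.ops v) 1
  have h3 : IsOpen (P : Set M) := Subgroup.isOpen_of_mem_nhds P h2
  have : Finite (M ⧸ P) := Subgroup.quotient_finite_of_isOpen P h3
  exact Subgroup.index_ne_zero_of_finite hidx

end Pool.Agent.H17.GY
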