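import Pool.Agent.H95.GY.Targets

/-! Slices in groups without small subgroups (SLC). -/

set_option autoImplicit false

open Filter Topology MeasureTheory Set
open scoped Pointwise

universe u v

namespace Pool.Agent.H17.GY

open Pool.Agent.H95.GY

theorem pf_SLC (hPWK : T_PWK.{u}) (hTUB : T_TUB.{u}) (hEXT : T_EXT.{u}) : T_SLC.{u} := by
  intro Q _ _ _ _ _ hQ K hK
  classical
  have : CompactSpace K := isCompact_iff_compactSpace.1 hK
  obtain ⟨O, hO, h1O, htrap⟩ := hQ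
  have hO1 : O ∈ 𝓝 (1 : Q) := hO.mem_nhds (h1O (by simp))
  have hU : (Subtype.val ⁻¹' O : Set K) ∈ 𝓝 (1 : K) :=
    continuous_subtype_val.continuousAt.preimage_mem_nhds (by simpa using hO1)
  obtain ⟨m, σ, hσc, hσo, hσk⟩ := hPWK K (Subtype.val ⁻¹' O) hU
  -- the representation is injective
  have hinj : Function.Injective σ := by
    rw [← MonoidHom.ker_eq_bot_iff]
    have h1 : (σ.ker.map K.subtype : Set Q) ⊆ O := by
      rintro _ ⟨g, hg, rfl⟩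
      exact hσk g (MonoidHom.mem_ker.1 hg)
    have h2 := htrap _ h1
    rw [eq_bot_iff]
    intro g hg
    have h3 := h2 ⟨g, hg, rfl⟩
    rw [Subgroup.mem_bot] at h3 ⊢
    exact Subtype.ext h3
  have hemb : IsClosedEmbedding σ := hσc.isClosedEmbedding hinj
  obtain ⟨T, r, hTo, hTσ, hrc, hrr, hrσ, heq⟩ := hTUB K m σ hσc hσo
  obtain ⟨F, hFc, hFσ, hFe⟩ := hEXT Q K hK m σ hσc hσo
  have hch : ∀ x ∈ F ⁻¹' T, ∃ k : K, σ k = r (F x) := fun x hx => hrr (F x) hx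
  let κ : F ⁻¹' T → K := fun x => (hch x.1 x.2).choose
  have hκ : ∀ x, σ (κ x) = r (F x.1) := fun x => (hch x.1 x.2).choose_spec
  have hκc : Continuous κ := by
    rw [hemb.isInducing.continuous_iff]
    have h1 : ContinuousOn (fun x => r (F x)) (F ⁻¹' T) :=
      hrc.comp hFc.continuousOn fun x hx => hx
    rw [continuousOn_iff_continuous_domRestrict] at h1
    refine h1.congr fun x => ?_
    exact (hκ x).symm
  let ρ : Q → Q := fun x => if h : x ∈ F ⁻¹' T then (κ ⟨x, h⟩ : Q) else 1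
  have hρ : ∀ (x : Q) (h : x ∈ F ⁻¹' T), ρ x = κ ⟨x, h⟩ := fun x h => dif_pos h
  have hKU : ∀ k : K, (k : Q) ∈ F ⁻¹' T := fun k => by
    show F k ∈ T
    rw [hFσ]
    exact hTσ k
  refine ⟨F ⁻¹' T, ρ, hTo.preimage hFc, fun k hk => hKU ⟨k, hk⟩, ?_, ?_, ?_, ?_⟩
  · rw [continuousOn_iff_continuous_domRestrict]
    refine (continuous_subtype_val.comp hκc).congr fun x => ?_
    exact (hρ x.1 x.2).symm
  · intro x hx
    rw [hρ x hx]
    exact (κ ⟨x, hx⟩).2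
  · intro k hk
    rw [hρ k (hKU ⟨k, hk⟩)]
    have h1 : κ ⟨k, hKU ⟨k, hk⟩⟩ = ⟨k, hk⟩ := by
      apply hinj
      rw [hκ]
      show r (F ((⟨k, hk⟩ : K) : Q)) = _
      rw [hFσ, hrσ]
    rw [h1]
  · intro k₁ hk₁ k₂ hk₂ x hx
    have h0 : F (k₁ * x * k₂) = σ ⟨k₁, hk₁⟩ * F x * σ ⟨k₂, hk₂⟩ := hFe ⟨k₁, hk₁⟩ ⟨k₂, hk₂⟩ x
    obtain ⟨h1, h2⟩ := heq ⟨k₁, hk₁⟩ ⟨k₂, hk₂⟩ (F x) hx
    have h3 : k₁ * x * k₂ ∈ F ⁻¹' T := by
      show F (k₁ * x * k₂) ∈ T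
      rw [h0]
      exact h1
    refine ⟨h3, ?_⟩
    rw [hρ _ h3, hρ _ hx]
    have h4 : κ ⟨k₁ * x * k₂, h3⟩ = (⟨k₁, hk₁⟩ : K) * κ ⟨x, hx⟩ * ⟨k₂, hk₂⟩ := by
      apply hinj
      rw [hκ, map_mul, map_mul, hκ, h0, h2]
    rw [h4]
    rfl

end Pool.Agent.H17.GY
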